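import Mathlib

set_option autoImplicit false
set_option linter.unusedSectionVars false

open Filter Topology Function Set

namespace Pool.Agent.Results.MP_d4114f_an.Comp

/-- `f` is affine on `K`. -/
def AffOn {V W : Type*} [AddCommGroup V] [Module ℝ V] [AddCommGroup W] [Module ℝ W]
    (K : Set V) (f : V → W) : Prop :=
  ∀ x ∈ K, ∀ y ∈ K, ∀ s t : ℝ, 0 ≤ s → 0 ≤ t → s + t = 1 → f (s • x + t • y) = s • f x + t • f y

/-- An affine `G`-flow inside `V`. -/
structure AffFlow (G V : Type*) [Group G] [TopologicalSpace G] [AddCommGroup V] [Module ℝ V]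
    [TopologicalSpace V] where
  K : Set V
  act : G → V → V
  compact : IsCompact K
  convex : Convex ℝ K
  maps : ∀ g, MapsTo (act g) K K
  one : ∀ x ∈ K, act 1 x = x
  mul : ∀ g h, ∀ x ∈ K, act (g * h) x = act g (act h x)
  cont : ContinuousOn (fun p : G × V => act p.1 p.2) (univ ×ˢ K)
  aff : ∀ g, AffOn K (act g)

section

variable {G V W : Type*} [Group G] [TopologicalSpace G] [AddCommGroup V] [Module ℝ V]
  [TopologicalSpace V] [AddCommGroup W] [Module ℝ W] [TopologicalSpace W]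

/-- An affine extension. -/
structure IsExt (L : AffFlow G V) (K : AffFlow G W) (φ : V → W) : Prop where
  cont : ContinuousOn φ L.K
  aff : AffOn L.K φ
  maps : MapsTo φ L.K K.K
  surj : SurjOn φ L.K K.K
  equiv : ∀ g, ∀ x ∈ L.K, φ (L.act g x) = K.act g (φ x)

/-- Proximal irreducibility. -/
def ProxIrr (L : AffFlow G V) (K : AffFlow G W) (φ : V → W) : Prop :=
  ∀ C ⊆ L.K, IsCompact C → Convex ℝ C → (∀ g, MapsTo (L.act g) C C) →
    (∀ y ∈ closure (K.K.extremePoints ℝ),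
      (C ∩ convexHull ℝ (closure (L.K.extremePoints ℝ) ∩ φ ⁻¹' {y})).Nonempty) → C = L.K

theorem AffOn.ext {K : Set V} {L : Set W} {f : V → W} (h : AffOn K f) (m : MapsTo f K L) {x y : V}
    (hx : x ∈ K) (hy : y ∈ K) {s t : ℝ} (hs : 0 < s) (ht : 0 < t) (e : s + t = 1)
    (hz : f (s • x + t • y) ∈ L.extremePoints ℝ) :
    f x = f (s • x + t • y) ∧ f y = f (s • x + t • y) :=
  (mem_extremePoints.1 hz).2 _ (m hx) _ (m hy) ⟨s, t, hs, ht, e, (h x hx y hy s t hs.le ht.le e).symm⟩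

theorem AffFlow.cg (L : AffFlow G V) (g : G) : ContinuousOn (L.act g) L.K :=
  L.cont.comp (f := fun x => (g, x)) (by fun_prop) fun _ hx => ⟨trivial, hx⟩

theorem AffFlow.inv (L : AffFlow G V) (g : G) {x : V} (hx : x ∈ L.K) :
    L.act g⁻¹ (L.act g x) = x := by rw [← L.mul _ _ _ hx, inv_mul_cancel, L.one _ hx]

abbrev AffFlow.E (L : AffFlow G V) : Set V := closure (L.K.extremePoints ℝ)

abbrev AffFlow.I (L : AffFlow G V) (S : Set V) : Prop := ∀ g, MapsTo (L.act g) S S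

variable [T2Space V]

theorem AffFlow.E_sub (L : AffFlow G V) : L.E ⊆ L.K :=
  closure_minimal extremePoints_subset L.compact.isClosed

theorem AffFlow.E_cpt (L : AffFlow G V) : IsCompact L.E :=
  L.compact.of_isClosed_subset isClosed_closure L.E_sub

theorem AffFlow.I.clos {L : AffFlow G V} {S : Set V} (h : L.I S) (hS : S ⊆ L.K) :
    L.I (closure S) := fun g =>
  (h g).closure_of_continuousOn ((L.cg g).mono (closure_minimal hS L.compact.isClosed))

theorem AffFlow.E_inv (L : AffFlow G V) : L.I L.E := by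
  refine AffFlow.I.clos (fun g x hx => mem_extremePoints.2 ⟨L.maps g hx.1, ?_⟩) extremePoints_subset
  rintro a ha b hb ⟨s, t, hs, ht, e, k⟩
  have := (L.aff g⁻¹).ext (L.maps g⁻¹) ha hb hs ht e (by rwa [k, L.inv g hx.1])
  rw [k, L.inv g hx.1] at this
  have i := fun {c} (hc : c ∈ L.K) => L.inv g⁻¹ hc
  simp only [inv_inv] at i
  exact ⟨by rw [← this.1, i ha], by rw [← this.2, i hb]⟩

omit [T2Space V] in
theorem AffFlow.I.hull {L : AffFlow G V} {S : Set V} (h : L.I S) (hS : S ⊆ L.K) :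
    L.I (convexHull ℝ S) := fun g x hx => by
  refine (convexHull_min (t := L.K ∩ L.act g ⁻¹' convexHull ℝ S)
    (fun y hy => ⟨hS hy, subset_convexHull ℝ S (h g hy)⟩) ?_ hx).2
  intro a ha b hb s t hs ht e
  refine ⟨L.convex ha.1 hb.1 hs ht e, ?_⟩
  rw [mem_preimage, L.aff g a ha.1 b hb.1 s t hs ht e]
  exact convex_convexHull ℝ S ha.2 hb.2 hs ht e

/-- Convex combinations with at most `2 ^ n` terms inside the fibres of `f`. -/
def R (E : Set V) (f : V → W) : ℕ → Set (V × W)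
  | 0 => (fun e => (e, f e)) '' E
  | n + 1 => {p | ∃ s ∈ Icc (0 : ℝ) 1, ∃ a b, (a, p.2) ∈ R E f n ∧ (b, p.2) ∈ R E f n ∧
      s • a + (1 - s) • b = p.1}

omit [TopologicalSpace V] [T2Space V] [AddCommGroup W] [Module ℝ W] [TopologicalSpace W] in
theorem R_mono (E : Set V) (f : V → W) : Monotone (R E f) :=
  monotone_nat_of_le_succ fun _ p hp => ⟨1, by simp, p.1, p.1, hp, hp, by simp⟩

omit [TopologicalSpace V] [T2Space V] [AddCommGroup W] [Module ℝ W] [TopologicalSpace W] in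
theorem R_iff {E : Set V} {f : V → W} {c : V} {y : W} :
    c ∈ convexHull ℝ (E ∩ f ⁻¹' {y}) ↔ ∃ n, (c, y) ∈ R E f n := by
  refine ⟨fun h => convexHull_min (t := {c | ∃ n, (c, y) ∈ R E f n})
    (fun e he => ⟨0, e, he.1, by rw [← he.2]⟩) ?_ h, ?_⟩
  · rintro a ⟨n, ha⟩ b ⟨m, hb⟩ s t hs ht e
    exact ⟨max n m + 1, s, ⟨hs, by linarith⟩, a, b, R_mono E f (le_max_left _ _) ha,
      R_mono E f (le_max_right _ _) hb, by rw [eq_sub_of_add_eq' e]⟩
  rintro ⟨n, h⟩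
  induction n generalizing c with
  | zero =>
    obtain ⟨e, he, k⟩ := h
    obtain ⟨rfl, rfl⟩ := Prod.mk.inj k
    exact subset_convexHull _ _ ⟨he, rfl⟩
  | succ n ih =>
    obtain ⟨s, hs, a, b, ha, hb, k⟩ := h
    exact (show _ = c from k) ▸ convex_convexHull ℝ _ (ih ha) (ih hb) hs.1 (sub_nonneg.2 hs.2) (by ring)

variable [IsTopologicalAddGroup V] [ContinuousSMul ℝ V]

omit [T2Space V] [AddCommGroup W] [Module ℝ W] in
theorem R_cpt [T2Space W] {E : Set V} {f : V → W} (hE : IsCompact E) (hf : ContinuousOn f E) :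
    ∀ n, IsCompact (R E f n)
  | 0 => hE.image_of_continuousOn (continuousOn_id.prodMk hf)
  | n + 1 => by
    have := R_cpt hE hf n
    convert (((isCompact_Icc (a := (0 : ℝ)) (b := 1)).prod (this.prod this)).inter_right
      (isClosed_eq (f := fun q => q.2.1.2) (g := fun q => q.2.2.2) (by fun_prop)
        (by fun_prop))).image (f := fun q => (q.1 • q.2.1.1 + (1 - q.1) • q.2.2.1, q.2.1.2))
        (by fun_prop)
    ext ⟨c, y⟩
    constructor
    · rintro ⟨s, hs, a, b, ha, hb, k⟩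
      exact ⟨(s, (a, y), (b, y)), ⟨⟨hs, ha, hb⟩, rfl⟩, Prod.ext k rfl⟩
    · rintro ⟨⟨s, ⟨a, y⟩, b, z⟩, ⟨⟨hs, ha, hb⟩, rfl : y = z⟩, k⟩
      obtain ⟨rfl, rfl⟩ := Prod.mk.inj k
      exact ⟨s, hs, a, b, ha, hb, rfl⟩

variable [LocallyConvexSpace ℝ V]

theorem milman {L S : Set V} (hL : IsCompact L) (hc : Convex ℝ L) (hS : IsClosed S) (h : S ⊆ L)
    (e : closure (convexHull ℝ S) = L) : L.extremePoints ℝ ⊆ S := fun x hx => by
  by_contra k
  have cv := (hc.mem_extremePoints_iff_convex_sdiff.1 hx).2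
  obtain ⟨D, d1, d2, d3, d4⟩ := (hL.of_isClosed_subset hS h).induction_on
    (p := fun T => ∃ D, IsCompact D ∧ Convex ℝ D ∧ D ⊆ L \ {x} ∧ T ⊆ D)
    ⟨∅, isCompact_empty, convex_empty, empty_subset _, subset_rfl⟩
    (fun s t st ⟨D, d1, d2, d3, d4⟩ => ⟨D, d1, d2, d3, st.trans d4⟩)
    (fun s t ⟨D, d1, d2, d3, d4⟩ ⟨F, f1, f2, f3, f4⟩ => by
      rcases D.eq_empty_or_nonempty with rfl | nD
      · exact ⟨F, f1, f2, f3, union_subset (d4.trans (empty_subset _)) f4⟩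
      rcases F.eq_empty_or_nonempty with rfl | nF
      · exact ⟨D, d1, d2, d3, union_subset d4 (f4.trans (empty_subset _))⟩
      refine ⟨convexHull ℝ (D ∪ F), ?_, convex_convexHull _ _, convexHull_min (union_subset d3 f3) cv,
        (union_subset_union d4 f4).trans (subset_convexHull _ _)⟩
      rw [d2.convexHull_union f2 nD nF]
      convert ((isCompact_Icc (a := (0 : ℝ)) (b := 1)).prod (d1.prod f1)).image
        (f := fun q => (1 - q.1) • q.2.1 + q.1 • q.2.2) (by fun_prop)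
      ext z
      simp only [mem_convexJoin, segment_eq_image, mem_image, mem_prod, Prod.exists]
      exact ⟨fun ⟨a, ha, b, hb, s, hs, k⟩ => ⟨s, a, b, ⟨hs, ha, hb⟩, k⟩,
        fun ⟨s, a, b, ⟨hs, ha, hb⟩, k⟩ => ⟨a, ha, b, hb, s, hs, k⟩⟩)
    fun s hs => by
      obtain ⟨f, hf⟩ := geometric_hahn_banach_point_point (x := s) (y := x) fun q => k (q ▸ hs)
      obtain ⟨a, h1, h2⟩ := exists_between hf
      refine ⟨L ∩ {z | f z ≤ a}, inter_mem (mem_of_superset self_mem_nhdsWithin h)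
        (mem_nhdsWithin_of_mem_nhds (f.continuous.continuousAt.eventually_le_const h1)), _,
        hL.inter_right (isClosed_le f.continuous continuous_const),
        hc.inter (convex_halfSpace_le f.isLinear a), fun z hz => ⟨hz.1, fun q => ?_⟩, subset_rfl⟩
      exact h2.not_ge (q ▸ hz.2)
  exact (d3 (closure_minimal (convexHull_min d4 d2) d1.isClosed (e ▸ hx.1))).2 rfl

theorem ProxIrr.sub {L : AffFlow G V} {K : AffFlow G W} {φ : V → W} (h : ProxIrr L K φ) {S : Set V}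
    (hS : IsClosed S) (s : S ⊆ L.K) (i : L.I S)
    (m : ∀ y ∈ K.E, (S ∩ convexHull ℝ (L.E ∩ φ ⁻¹' {y})).Nonempty) : L.E ⊆ S := by
  have c := convexHull_min s L.convex
  refine closure_minimal (milman L.compact L.convex hS s (h _ (closure_minimal c L.compact.isClosed)
    (L.compact.closure_of_subset c) (convex_convexHull _ _).closure ((i.hull s).clos c)
    fun y hy => (m y hy).mono (inter_subset_inter_left _ ?_))) hS
  exact (subset_convexHull _ _).trans subset_closure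

variable [T2Space W]

theorem IsExt.surjE {L : AffFlow G V} {K : AffFlow G W} {φ : V → W} (h : IsExt L K φ) :
    SurjOn φ L.E K.E := by
  refine closure_minimal (fun w hw => ?_)
    (L.E_cpt.image_of_continuousOn (h.cont.mono L.E_sub)).isClosed
  obtain ⟨x, ⟨hx, rfl⟩, k⟩ := (L.compact.of_isClosed_subset
    (h.cont.preimage_isClosed_of_isClosed L.compact.isClosed (isClosed_singleton (x := w)))
    inter_subset_left).extremePoints_nonempty (by
      obtain ⟨x, hx, e⟩ := h.surj hw.1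
      exact ⟨x, hx, e⟩)
  refine mem_image_of_mem _ (subset_closure ⟨hx, fun a ha b hb q => ?_⟩)
  obtain ⟨s, t, hs, ht, e, rfl⟩ := id q
  have := h.aff.ext h.maps ha hb hs ht e hw
  exact k ⟨ha, this.1⟩ ⟨hb, this.2⟩ q

theorem IsExt.pre {L : AffFlow G V} {K : AffFlow G W} {φ : V → W} (h : IsExt L K φ) {N : Set W}
    (hN : IsClosed N) (i : K.I N) : IsClosed (L.E ∩ φ ⁻¹' N) ∧ L.I (L.E ∩ φ ⁻¹' N) :=
  ⟨(h.cont.mono L.E_sub).preimage_isClosed_of_isClosed isClosed_closure hN, fun g x hx =>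
    ⟨L.E_inv g hx.1, by rw [mem_preimage, h.equiv g x (L.E_sub hx.1)]; exact i g hx.2⟩⟩

theorem IsExt.mapsE {L : AffFlow G V} {K : AffFlow G W} {φ : V → W} (h : IsExt L K φ)
    (p : ProxIrr L K φ) : MapsTo φ L.E K.E := fun x hx => by
  have := h.pre isClosed_closure K.E_inv
  refine (p.sub this.1 (inter_subset_left.trans L.E_sub) this.2 (fun y hy => ?_) hx).2
  obtain ⟨e, he, rfl⟩ := h.surjE hy
  exact ⟨e, ⟨he, hy⟩, subset_convexHull _ _ ⟨he, rfl⟩⟩

end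

theorem result {G U V W : Type*} [Group G] [TopologicalSpace G]
    [AddCommGroup U] [Module ℝ U] [TopologicalSpace U] [IsTopologicalAddGroup U]
    [ContinuousSMul ℝ U] [LocallyConvexSpace ℝ U] [T2Space U]
    [AddCommGroup V] [Module ℝ V] [TopologicalSpace V] [IsTopologicalAddGroup V]
    [ContinuousSMul ℝ V] [LocallyConvexSpace ℝ V] [T2Space V]
    [AddCommGroup W] [Module ℝ W] [TopologicalSpace W] [IsTopologicalAddGroup W]
    [ContinuousSMul ℝ W] [LocallyConvexSpace ℝ W] [T2Space W]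
    (P : AffFlow G U) (L : AffFlow G V) (K : AffFlow G W) (ψ : U → V) (φ : V → W)
    (hψ : IsExt P L ψ) (hφ : IsExt L K φ) (pψ : ProxIrr P L ψ) (pφ : ProxIrr L K φ) :
    IsExt P K (φ ∘ ψ) ∧ ProxIrr P K (φ ∘ ψ) := by
  have hf : IsExt P K (φ ∘ ψ) := ⟨hφ.cont.comp hψ.cont hψ.maps, fun x hx y hy s t hs ht e => by
    simp only [comp, hψ.aff x hx y hy s t hs ht e, hφ.aff _ (hψ.maps hx) _ (hψ.maps hy) s t hs ht e],
    hφ.maps.comp hψ.maps, hφ.surj.comp hψ.surj, fun g x hx => by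
      simp only [comp, hψ.equiv g x hx, hφ.equiv g _ (hψ.maps hx)]⟩
  refine ⟨hf, fun C c1 c2 c3 c4 c5 => ?_⟩
  have mψ := hψ.mapsE pψ
  have mφ := hφ.mapsE pφ
  have rK : ∀ {n c y}, (c, y) ∈ R P.E (φ ∘ ψ) n → c ∈ P.K := fun h =>
    convexHull_min (inter_subset_left.trans P.E_sub) P.convex (R_iff.2 ⟨_, h⟩)
  have r1 : ∀ n c y, (c, y) ∈ R P.E (φ ∘ ψ) n →
      (∀ g, (P.act g c, K.act g y) ∈ R P.E (φ ∘ ψ) n) ∧ (ψ c, y) ∈ R L.E φ n ∧
        (ψ c ∈ L.K.extremePoints ℝ → (c, ψ c) ∈ R P.E ψ n) := fun n => by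
    induction n with
    | zero =>
      rintro c y ⟨e, he, k⟩
      obtain ⟨rfl, rfl⟩ := Prod.mk.inj k
      exact ⟨fun g => ⟨_, P.E_inv g he, Prod.ext rfl (hf.equiv g e (P.E_sub he))⟩, ⟨_, mψ he, rfl⟩,
        fun _ => ⟨_, he, rfl⟩⟩
    | succ n ih =>
      rintro c y ⟨s, hs, a, b, ha, hb, rfl : _ = c⟩
      have t0 := sub_nonneg.2 hs.2
      have e : s + (1 - s) = 1 := by ring
      refine ⟨fun g => ⟨s, hs, _, _, (ih a y ha).1 g, (ih b y hb).1 g,
        (P.aff g a (rK ha) b (rK hb) _ _ hs.1 t0 e).symm⟩, ⟨s, hs, _, _, (ih a y ha).2.1,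
        (ih b y hb).2.1, (hψ.aff a (rK ha) b (rK hb) _ _ hs.1 t0 e).symm⟩, fun hx => ?_⟩
      rcases hs.1.eq_or_lt with rfl | s0
      · simp only [zero_smul, zero_add, sub_zero, one_smul] at hx ⊢
        exact R_mono _ _ n.le_succ ((ih b y hb).2.2 hx)
      rcases hs.2.eq_or_lt with rfl | s1
      · simp only [zero_smul, add_zero, sub_self, one_smul] at hx ⊢
        exact R_mono _ _ n.le_succ ((ih a y ha).2.2 hx)
      obtain ⟨k1, k2⟩ := hψ.aff.ext hψ.maps (rK ha) (rK hb) s0 (sub_pos.2 s1) e hx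
      exact ⟨s, hs, a, b, k1 ▸ (ih a y ha).2.2 (k1 ▸ hx), k2 ▸ (ih b y hb).2.2 (k2 ▸ hx), rfl⟩
  let T : ℕ → Set (U × W) := fun n => R P.E (φ ∘ ψ) n ∩ C ×ˢ univ
  have tc : ∀ n, IsCompact (T n) := fun n => (R_cpt P.E_cpt (hf.cont.mono P.E_sub) n).inter_right
    (c2.isClosed.prod isClosed_univ)
  let N : ℕ → Set W := fun n => closure (K.E \ Prod.snd '' T n)
  have nI : ∀ n, K.I (N n) := fun n => AffFlow.I.clos (fun g y hy => ⟨K.E_inv g hy.1,
    fun ⟨⟨c, z⟩, k, e⟩ => hy.2 ⟨(P.act g⁻¹ c, K.act g⁻¹ z), ⟨(r1 n c z k.1).1 _, c4 _ k.2.1, trivial⟩,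
      by rw [show z = _ from e, K.inv g (K.E_sub hy.1)]⟩⟩) (sdiff_subset.trans K.E_sub)
  have key : ∀ n, P.E ⊆ C ∪ P.E ∩ (φ ∘ ψ) ⁻¹' N n := fun n => by
    have d1 := hφ.pre isClosed_closure (nI n)
    have d2 := hf.pre isClosed_closure (nI n)
    have aK : Prod.fst '' T n ⊆ P.K := fun _ ⟨_, k, e⟩ => e ▸ c1 k.2.1
    have s1 : L.E ⊆ ψ '' (Prod.fst '' T n) ∪ L.E ∩ φ ⁻¹' N n := by
      refine pφ.sub ((((tc n).image continuous_fst).image_of_continuousOn
        (hψ.cont.mono aK)).isClosed.union d1.1) (union_subset (hψ.maps.mono_left aK).image_subset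
        (inter_subset_left.trans L.E_sub)) (fun g => MapsTo.union_union ?_ (d1.2 g)) fun y hy => ?_
      · rintro _ ⟨_, ⟨⟨c, y⟩, k, rfl⟩, rfl⟩
        exact ⟨_, ⟨(P.act g c, K.act g y), ⟨(r1 n c y k.1).1 g, c4 g k.2.1, trivial⟩, rfl⟩,
          hψ.equiv g c (c1 k.2.1)⟩
      by_cases k : y ∈ Prod.snd '' T n
      · obtain ⟨⟨c, y⟩, k, rfl⟩ := k
        exact ⟨ψ c, Or.inl ⟨c, ⟨_, k, rfl⟩, rfl⟩, R_iff.2 ⟨n, (r1 n c y k.1).2.1⟩⟩
      · obtain ⟨e, he, rfl⟩ := hφ.surjE hy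
        exact ⟨e, Or.inr ⟨he, subset_closure ⟨hy, k⟩⟩, subset_convexHull _ _ ⟨he, rfl⟩⟩
    have s2 : L.E ⊆ Prod.snd '' (R P.E ψ n ∩ C ×ˢ univ) ∪ L.E ∩ φ ⁻¹' N n := by
      refine closure_minimal (fun z hz => (s1 (subset_closure hz)).imp_left ?_)
        ((((R_cpt P.E_cpt (hψ.cont.mono P.E_sub) n).inter_right
          (c2.isClosed.prod isClosed_univ)).image continuous_snd).isClosed.union d1.1)
      rintro ⟨_, ⟨⟨c, y⟩, k, rfl⟩, rfl⟩
      exact ⟨_, ⟨(r1 n c y k.1).2.2 hz, k.2.1, trivial⟩, rfl⟩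
    refine pψ.sub (c2.isClosed.union d2.1) (union_subset c1 (inter_subset_left.trans P.E_sub))
      (fun g => (c4 g).union_union (d2.2 g)) fun z hz => ?_
    rcases s2 hz with ⟨⟨c, z⟩, k, rfl⟩ | k
    · exact ⟨c, Or.inl k.2.1, R_iff.2 ⟨n, k.1⟩⟩
    · obtain ⟨e, he, rfl⟩ := hψ.surjE hz
      exact ⟨e, Or.inr ⟨he, k.2⟩, subset_convexHull _ _ ⟨he, rfl⟩⟩
  have sc : IsCompact (P.E ∩ C) := c2.inter_left isClosed_closure
  have sK : P.E ∩ C ⊆ P.K := inter_subset_right.trans c1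
  have s3 : K.E ⊆ (φ ∘ ψ) '' (P.E ∩ C) := by
    have : CompactSpace K.E := isCompact_iff_compactSpace.1 K.E_cpt
    have d := dense_iUnion_interior_of_closed (f := fun n => ((↑) : K.E → W) ⁻¹' (Prod.snd '' T n))
      (fun n => ((tc n).image continuous_snd).isClosed.preimage continuous_subtype_val)
      (eq_univ_of_forall fun y => by
        obtain ⟨c, h1, h2⟩ := c5 y y.2
        obtain ⟨n, h2⟩ := R_iff.1 h2
        exact mem_iUnion.2 ⟨n, _, ⟨h2, h1, trivial⟩, rfl⟩)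
    refine (Subtype.dense_iff.1 d).trans (closure_minimal ?_
      (sc.image_of_continuousOn (hf.cont.mono sK)).isClosed)
    rintro _ ⟨y, hy, rfl⟩
    obtain ⟨n, hy⟩ := mem_iUnion.1 hy
    obtain ⟨e, he, k⟩ := hf.surjE y.2
    refine ⟨e, ⟨he, (key n he).resolve_right fun q => ?_⟩, k⟩
    have q2 : (y : W) ∈ N n := k ▸ q.2
    rw [mem_interior_iff_mem_nhds, nhds_subtype, mem_comap] at hy
    obtain ⟨O, o1, o2⟩ := hy
    obtain ⟨w, w1, w2⟩ := mem_closure_iff_nhds.1 q2 O o1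
    exact w2.2 (o2 (a := ⟨w, w2.1⟩) w1)
  have s4 : L.E ⊆ ψ '' (P.E ∩ C) := by
    refine pφ.sub (sc.image_of_continuousOn (hψ.cont.mono sK)).isClosed
      (hψ.maps.mono_left sK).image_subset (fun g => ?_) fun y hy => ?_
    · rintro _ ⟨e, he, rfl⟩
      exact ⟨_, ⟨P.E_inv g he.1, c4 g he.2⟩, hψ.equiv g e (sK he)⟩
    · obtain ⟨e, he, rfl⟩ := s3 hy
      exact ⟨_, ⟨e, he, rfl⟩, subset_convexHull _ _ ⟨mψ he.1, rfl⟩⟩
  refine pψ C c1 c2 c3 c4 fun z hz => ?_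
  obtain ⟨e, he, rfl⟩ := s4 hz
  exact ⟨e, he.2, subset_convexHull _ _ ⟨he.1, rfl⟩⟩

end Pool.Agent.Results.MP_d4114f_an.Comp
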